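import Pool.Agent.Lib.MP_625f41_nt.CuspK

/-!
# Root separation of irreducible integer polynomials: `e^*(n) ≥ (2 n - 1) / 3`

The polynomials are the norms, from `ℚ(z)` to `ℚ(x)` with
`x = (z^3 - z^2 - 6 z - 2) / (z + 2)`, of the members `Q_j` of a pencil of polynomials of degree
`n` in `z` attached to the units `(1 + √2)^j`.
-/

namespace Pool.Agent.Results.MP_625f41_nt.IrreducibleExponent

open Pool.Agent.Lib.MP_625f41_nt

theorem result (n : ℕ) (hn : 2 ≤ n) : (((2 * (n : ℝ) - 1) / 3 : ℝ) : EReal) ≤ eStar n :=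
  eStar_ge n hn

end Pool.Agent.Results.MP_625f41_nt.IrreducibleExponent
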