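import Pool.Agent.Lib.MP_625f41_nt.H49.Fam
import Pool.Agent.Lib.MP_625f41_nt.H49.Quartic

/-!
# Root separation exponents of monic (irreducible) integer polynomials

`e_0^*(n) ≥ (2 n - 2) / 3` for odd `n ≥ 3`, `e_0^*(n) ≥ (2 n - 4) / 3` for even `n ≥ 4`,
`e_0^*(4) ≥ 5 / 3`, and the same bounds for `e_0(n)`.
-/

open Polynomial

namespace Pool.Agent.Results.MP_625f41_nt.MonicExponent

open Pool.Agent.Lib.MP_625f41_nt

/-- Lower bounds for the root separation exponents `e_0^*(n)` (irreducible monic integer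
polynomials) and `e_0(n)` (monic separable integer polynomials). -/
theorem result :
    (∀ n : ℕ, 3 ≤ n → Odd n → (((2 * (n : ℝ) - 2) / 3 : ℝ) : EReal) ≤ eMonicStar n ∧
      (((2 * (n : ℝ) - 2) / 3 : ℝ) : EReal) ≤ eMonic n) ∧
    (∀ n : ℕ, 4 ≤ n → Even n → (((2 * (n : ℝ) - 4) / 3 : ℝ) : EReal) ≤ eMonicStar n ∧
      (((2 * (n : ℝ) - 4) / 3 : ℝ) : EReal) ≤ eMonic n) ∧
    ((5 / 3 : ℝ) : EReal) ≤ eMonicStar 4 := by
  refine ⟨?_, ?_, ?_⟩
  · rintro n hn ⟨m, rfl⟩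
    have h1 : (2 * ((2 * m + 1 : ℕ) : ℝ) - 2) / 3 = ((4 * m : ℕ) : ℝ) / 3 := by
      push_cast; ring
    rw [h1]
    exact ⟨H49.odd_case m (by omega) _ (fun P hP => hP.1) (fun P a b c => ⟨a, b, c⟩),
      H49.odd_case m (by omega) _ (fun P hP => hP.1) (fun P a b _ => ⟨a, b⟩)⟩
  · rintro n hn ⟨k, hk⟩
    obtain ⟨m, rfl⟩ : ∃ m, k = m + 1 := ⟨k - 1, by omega⟩
    obtain rfl : n = 2 * m + 2 := by omega
    have h1 : (2 * ((2 * m + 2 : ℕ) : ℝ) - 4) / 3 = ((4 * m : ℕ) : ℝ) / 3 := by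
      push_cast; ring
    rw [h1]
    exact ⟨H49.even_case m (by omega) _ (fun P hP => hP.1) (fun P a b c => ⟨a, b, c⟩),
      H49.even_case m (by omega) _ (fun P hP => hP.1) (fun P a b _ => ⟨a, b⟩)⟩
  · have h := H49.Quartic.quartic (fun P => HasDistinctRoots P ∧ P.Monic ∧ IrreducibleOverRat P)
      (fun P hP => hP.1) (fun P a b c => ⟨a, b, c⟩)
    have h1 : ((5 : ℕ) : ℝ) / 3 = 5 / 3 := by norm_num
    rw [h1] at h
    exact h

end Pool.Agent.Results.MP_625f41_nt.MonicExponent
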