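import Pool.Agent.Lib.MP_625f41_nt.H7.Main

/-!
# Root separation in degree `3 m`: `e^*(3 m) ≥ 2 m - 1/5` and `e(3 m) ≥ 2 m - 1/5`

The polynomials `P_j` are traces from `ℤ[√19]` of polynomials whose coefficients are built from
the unit `ε^j`, `ε = 170 + 39 √19`. With `u = ε^j`, `Z = τ (X - √19) / (X + √19)`, `τ` a multiple of
`u^4`, and `W` a multiple of `u^(-4 s - 2)`, one has `P_j(X) = c (X + √19)^(3 s + 3) g(Z, W Z^s)`
for one rational curve `g(Z, V) = 0` which has a cusp of type `A_4` at `(125, 0)`. Irreducibility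
for almost all `j` comes from the norms of the numbers `∏ Z` over the roots of a factor.
-/

namespace Pool.Agent.Results.MP_625f41_nt.MultiplesOfThree

open Pool.Agent.Lib.MP_625f41_nt

theorem result (m : ℕ) (hm : 2 ≤ m) :
    ((2 * (m : ℝ) - 1 / 5 : ℝ) : EReal) ≤ eStar (3 * m) ∧
      ((2 * (m : ℝ) - 1 / 5 : ℝ) : EReal) ≤ e (3 * m) :=
  H7.main m hm

end Pool.Agent.Results.MP_625f41_nt.MultiplesOfThree
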