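import Pool.Agent.Lib.MP_625f41_nt.Basic

/-!
# The exponent `e(4)` of root separation of integer quartics is at least `5 / 2`

Let `(m, n)` run through the solutions of `m ^ 2 - 2 n ^ 2 = ± 1` and put
`C(x) = (m + n) x ^ 3 - (3 m + 2 n) x ^ 2 + (2 m + 6 n) x - (2 m + 4 n)`,
`X' = 2 m ^ 3 + 6 m ^ 2 n + 4 m n ^ 2 + 4 n ^ 3`, `Y' = m ^ 3 + 2 m ^ 2 n + 6 m n ^ 2 + 4 n ^ 3`.
The identity `Y' ^ 3 * C (X' / Y') = - 2 (m ^ 2 - 2 n ^ 2) ^ 5` makes the real root of `C`
extremely close to `X' / Y'`.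
-/

open Polynomial Filter

namespace Pool.Agent.Results.MP_625f41_nt.QuarticExponent

open Pool.Agent.Lib.MP_625f41_nt

/-- numerator of the rational root -/
def xx (m n : ℤ) : ℤ := 2 * m ^ 3 + 6 * m ^ 2 * n + 4 * m * n ^ 2 + 4 * n ^ 3

/-- denominator of the rational root -/
def yy (m n : ℤ) : ℤ := m ^ 3 + 2 * m ^ 2 * n + 6 * m * n ^ 2 + 4 * n ^ 3

/-- a quartic polynomial with given coefficients -/
noncomputable def poly4 (a b c d e : ℤ) : ℤ[X] :=
  C a * X ^ 4 + C b * X ^ 3 + C c * X ^ 2 + C d * X + C e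

lemma poly4_coeff_zero (a b c d e : ℤ) : (poly4 a b c d e).coeff 0 = e := by
  simp only [poly4, coeff_add, coeff_C_mul, coeff_X_pow, coeff_X, coeff_C]; norm_num

lemma poly4_coeff_one (a b c d e : ℤ) : (poly4 a b c d e).coeff 1 = d := by
  simp only [poly4, coeff_add, coeff_C_mul, coeff_X_pow, coeff_X, coeff_C]; norm_num

lemma poly4_coeff_two (a b c d e : ℤ) : (poly4 a b c d e).coeff 2 = c := by
  simp only [poly4, coeff_add, coeff_C_mul, coeff_X_pow, coeff_X, coeff_C]; norm_num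

lemma poly4_coeff_three (a b c d e : ℤ) : (poly4 a b c d e).coeff 3 = b := by
  simp only [poly4, coeff_add, coeff_C_mul, coeff_X_pow, coeff_X, coeff_C]; norm_num

lemma poly4_coeff_four (a b c d e : ℤ) : (poly4 a b c d e).coeff 4 = a := by
  simp only [poly4, coeff_add, coeff_C_mul, coeff_X_pow, coeff_X, coeff_C]; norm_num

lemma natDegree_poly4 {a b c d e : ℤ} (ha : a ≠ 0) : (poly4 a b c d e).natDegree = 4 := by
  unfold poly4
  compute_degree!

lemma eval_poly4 (a b c d e : ℤ) (z : ℂ) :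
    ((poly4 a b c d e).map (Int.castRingHom ℂ)).eval z =
      a * z ^ 4 + b * z ^ 3 + c * z ^ 2 + d * z + e := by
  simp [poly4]

lemma eval_derivative_poly4 (a b c d e : ℤ) (z : ℂ) :
    (derivative ((poly4 a b c d e).map (Int.castRingHom ℂ))).eval z =
      4 * a * z ^ 3 + 3 * b * z ^ 2 + 2 * c * z + d := by
  simp [poly4]
  ring

/-- the quartic -/
noncomputable def quart (m n : ℤ) : ℤ[X] :=
  poly4 (yy m n * (m + n))
    (-(yy m n * (3 * m + 2 * n)) - xx m n * (m + n))
    (yy m n * (2 * m + 6 * n) + xx m n * (3 * m + 2 * n))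
    (-(yy m n * (2 * m + 4 * n)) - xx m n * (2 * m + 6 * n))
    (xx m n * (2 * m + 4 * n))

/-- the complex cubic -/
noncomputable def g (m n : ℤ) (z : ℂ) : ℂ :=
  (m + n) * z ^ 3 - (3 * m + 2 * n) * z ^ 2 + (2 * m + 6 * n) * z - (2 * m + 4 * n)

/-- its derivative -/
noncomputable def g' (m n : ℤ) (z : ℂ) : ℂ :=
  3 * (m + n) * z ^ 2 - 2 * (3 * m + 2 * n) * z + (2 * m + 6 * n)

lemma eval_quart (m n : ℤ) (z : ℂ) :
    ((quart m n).map (Int.castRingHom ℂ)).eval z = ((yy m n : ℂ) * z - xx m n) * g m n z := by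
  rw [quart, eval_poly4, g]
  push_cast
  ring

lemma eval_derivative_quart (m n : ℤ) (z : ℂ) :
    (derivative ((quart m n).map (Int.castRingHom ℂ))).eval z =
      yy m n * g m n z + ((yy m n : ℂ) * z - xx m n) * g' m n z := by
  rw [quart, eval_derivative_poly4, g, g']
  push_cast
  ring

lemma aeval_quart (m n : ℤ) (z : ℂ) :
    aeval z (quart m n) = ((yy m n : ℂ) * z - xx m n) * g m n z := by
  rw [← eval_quart, eval_map, aeval_def]
  simp

lemma key_identity (m n : ℤ) :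
    (m + n) * xx m n ^ 3 - (3 * m + 2 * n) * xx m n ^ 2 * yy m n
      + (2 * m + 6 * n) * xx m n * yy m n ^ 2 - (2 * m + 4 * n) * yy m n ^ 3
      = -2 * (m ^ 2 - 2 * n ^ 2) ^ 5 := by
  unfold xx yy
  ring

/-- The hypotheses on the pair `(m, n)`. -/
structure Good (m n : ℤ) : Prop where
  norm : m ^ 2 - 2 * n ^ 2 = 1 ∨ m ^ 2 - 2 * n ^ 2 = -1
  hn : 1 ≤ n
  hnm : n ≤ m
  hmn : m ≤ 2 * n

lemma good_succ {m n : ℤ} (h : Good m n) : Good (m + 2 * n) (m + n) := by
  obtain ⟨h1, h2, h3, h4⟩ := h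
  refine ⟨?_, by omega, by omega, by omega⟩
  have : (m + 2 * n) ^ 2 - 2 * (m + n) ^ 2 = -(m ^ 2 - 2 * n ^ 2) := by ring
  rw [this]
  rcases h1 with h | h <;> rw [h] <;> simp

lemma exists_good (N : ℕ) : ∃ m n : ℤ, Good m n ∧ (N : ℤ) ≤ m := by
  induction N with
  | zero => exact ⟨1, 1, ⟨by norm_num, by norm_num, by norm_num, by norm_num⟩, by norm_num⟩
  | succ N ih =>
    obtain ⟨m, n, h, hN⟩ := ih
    refine ⟨m + 2 * n, m + n, good_succ h, ?_⟩
    have := h.hn
    push_cast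
    linarith

section real

variable {m n : ℤ}

/-- the real cubic function -/
noncomputable def f (m n : ℤ) (x : ℝ) : ℝ :=
  (m + n) * x ^ 3 - (3 * m + 2 * n) * x ^ 2 + (2 * m + 6 * n) * x - (2 * m + 4 * n)

/-- the divided difference -/
noncomputable def dd (m n : ℤ) (x y : ℝ) : ℝ :=
  (m + n) * (x ^ 2 + x * y + y ^ 2) - (3 * m + 2 * n) * (x + y) + (2 * m + 6 * n)

lemma f_sub (x y : ℝ) : f m n y - f m n x = (y - x) * dd m n x y := by
  unfold f dd; ring

lemma dd_ge (h : Good m n) (x y : ℝ) : (m : ℝ) ≤ dd m n x y := by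
  have hn : (1 : ℝ) ≤ n := by exact_mod_cast h.hn
  have hnm : (n : ℝ) ≤ m := by exact_mod_cast h.hnm
  have hmn : (m : ℝ) ≤ 2 * n := by exact_mod_cast h.hmn
  have ha : (0 : ℝ) < m + n := by linarith
  have key : 12 * (m + n : ℝ) * (dd m n x y - m) =
      (3 * (m + n) * (x + y) - 2 * (3 * m + 2 * n)) ^ 2 + 3 * ((m + n) * (x - y)) ^ 2
        + 4 * ((2 * n - m) * (6 * m + 3 * n) + 8 * n ^ 2) := by
    unfold dd; ring
  have hpos : 0 ≤ 12 * (m + n : ℝ) * (dd m n x y - m) := by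
    rw [key]
    have h1 : 0 ≤ (2 * n - m : ℝ) * (6 * m + 3 * n) :=
      mul_nonneg (by linarith) (by linarith)
    positivity
  have : 0 ≤ dd m n x y - m := by
    by_contra hneg
    push Not at hneg
    have : 12 * (m + n : ℝ) * (dd m n x y - m) < 0 := by
      apply mul_neg_of_pos_of_neg <;> linarith
    linarith
  linarith

lemma continuous_f : Continuous (f m n) := by
  unfold f; fun_prop

lemma yy_ge (h : Good m n) : (m : ℝ) ^ 3 ≤ yy m n := by
  have hn : (1 : ℝ) ≤ n := by exact_mod_cast h.hn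
  have hnm : (n : ℝ) ≤ m := by exact_mod_cast h.hnm
  have : (yy m n : ℝ) = m ^ 3 + 2 * m ^ 2 * n + 6 * m * n ^ 2 + 4 * n ^ 3 := by
    unfold yy; push_cast; ring
  rw [this]
  have : (0:ℝ) ≤ m := by linarith
  have : (0:ℝ) ≤ n := by linarith
  have h1 : (0:ℝ) ≤ 2 * m ^ 2 * n + 6 * m * n ^ 2 + 4 * n ^ 3 := by positivity
  linarith

lemma yy_pos (h : Good m n) : (0 : ℝ) < yy m n := by
  have hn : (1 : ℝ) ≤ n := by exact_mod_cast h.hn
  have hnm : (n : ℝ) ≤ m := by exact_mod_cast h.hnm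
  have : (0:ℝ) < (m:ℝ) ^ 3 := by
    have : (0:ℝ) < m := by linarith
    positivity
  exact this.trans_le (yy_ge h)

lemma f_root (h : Good m n) :
    f m n (xx m n / yy m n) = -2 * ((m : ℝ) ^ 2 - 2 * n ^ 2) ^ 5 / (yy m n) ^ 3 := by
  have hy := (yy_pos h).ne'
  have key : ((m : ℝ) + n) * xx m n ^ 3 - (3 * m + 2 * n) * xx m n ^ 2 * yy m n
      + (2 * m + 6 * n) * xx m n * yy m n ^ 2 - (2 * m + 4 * n) * yy m n ^ 3
      = -2 * ((m : ℝ) ^ 2 - 2 * n ^ 2) ^ 5 := by
    exact_mod_cast congrArg (Int.cast : ℤ → ℝ) (key_identity m n)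
  rw [← key]
  unfold f
  field_simp

lemma f_root_abs (h : Good m n) :
    |f m n (xx m n / yy m n)| = 2 / (yy m n) ^ 3 := by
  have hy := yy_pos h
  have hN : |((m : ℝ) ^ 2 - 2 * n ^ 2) ^ 5| = 1 := by
    rcases h.norm with h1 | h1
    · have : ((m : ℝ) ^ 2 - 2 * n ^ 2) = 1 := by exact_mod_cast h1
      rw [this]; norm_num
    · have : ((m : ℝ) ^ 2 - 2 * n ^ 2) = -1 := by exact_mod_cast h1
      rw [this]; norm_num
  rw [f_root h, abs_div, abs_mul, hN, abs_of_pos (pow_pos hy 3)]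
  norm_num

/-- The real root of the cubic near the rational number `xx / yy`. -/
lemma exists_root (h : Good m n) :
    ∃ β : ℝ, f m n β = 0 ∧ β ≠ xx m n / yy m n ∧
      |β - xx m n / yy m n| ≤ 2 / (m : ℝ) ^ 10 := by
  have hn : (1 : ℝ) ≤ n := by exact_mod_cast h.hn
  have hnm : (n : ℝ) ≤ m := by exact_mod_cast h.hnm
  have hm : (0 : ℝ) < m := by linarith
  have hy := yy_pos h
  set x₀ : ℝ := xx m n / yy m n with hx₀
  have habs := f_root_abs h
  rw [← hx₀] at habs
  have hne : f m n x₀ ≠ 0 := by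
    intro h0
    rw [h0] at habs
    simp only [abs_zero] at habs
    have : (0:ℝ) < 2 / (yy m n : ℝ) ^ 3 := by positivity
    linarith
  -- a root exists at distance at most |f x₀| / m
  have hroot : ∃ β : ℝ, f m n β = 0 ∧ |β - x₀| ≤ |f m n x₀| / m := by
    set s : ℝ := |f m n x₀| / m with hs
    have hs0 : 0 ≤ s := by positivity
    have hms : s * m = |f m n x₀| := by rw [hs]; field_simp
    have hup : 0 ≤ f m n (x₀ + s) := by
      have h1 := f_sub (m := m) (n := n) x₀ (x₀ + s)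
      have h2 := dd_ge h x₀ (x₀ + s)
      have h3 : s * m ≤ (x₀ + s - x₀) * dd m n x₀ (x₀ + s) := by
        rw [add_sub_cancel_left]
        exact mul_le_mul_of_nonneg_left h2 hs0
      have h4 := neg_abs_le (f m n x₀)
      linarith
    have hlo : f m n (x₀ - s) ≤ 0 := by
      have h1 := f_sub (m := m) (n := n) (x₀ - s) x₀
      have h2 := dd_ge h (x₀ - s) x₀
      have h3 : s * m ≤ (x₀ - (x₀ - s)) * dd m n (x₀ - s) x₀ := by
        rw [sub_sub_cancel]
        exact mul_le_mul_of_nonneg_left h2 hs0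
      have h4 := le_abs_self (f m n x₀)
      linarith
    have hle : x₀ - s ≤ x₀ + s := by linarith
    obtain ⟨β, hβ, hβ0⟩ := intermediate_value_Icc hle (continuous_f (m := m) (n := n)).continuousOn
      (show (0 : ℝ) ∈ Set.Icc (f m n (x₀ - s)) (f m n (x₀ + s)) from ⟨hlo, hup⟩)
    exact ⟨β, hβ0, by rw [abs_le]; constructor <;> linarith [hβ.1, hβ.2]⟩
  obtain ⟨β, hβ, hdist⟩ := hroot
  refine ⟨β, hβ, ?_, ?_⟩
  · rintro rfl
    exact hne hβ
  · refine hdist.trans ?_
    rw [habs]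
    have h1 : (m : ℝ) ^ 9 ≤ (yy m n : ℝ) ^ 3 := by
      have := pow_le_pow_left₀ (by positivity) (yy_ge h) 3
      calc (m : ℝ) ^ 9 = ((m : ℝ) ^ 3) ^ 3 := by ring
        _ ≤ _ := this
    calc 2 / (yy m n : ℝ) ^ 3 / m ≤ 2 / (m : ℝ) ^ 9 / m := by gcongr
      _ = 2 / (m : ℝ) ^ 10 := by
        rw [div_div, ← pow_succ]

end real

section poly

variable {m n : ℤ}

lemma yy_pos' (h : Good m n) : 0 < yy m n := by exact_mod_cast yy_pos h

lemma natDegree_quart (h : Good m n) : (quart m n).natDegree = 4 := by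
  have h1 := h.hn
  have h2 := h.hnm
  have h3 := yy_pos' h
  have hne : yy m n * (m + n) ≠ 0 := by
    have : 0 < yy m n * (m + n) := mul_pos h3 (by omega)
    exact this.ne'
  exact natDegree_poly4 hne

lemma quart_ne_zero (h : Good m n) : quart m n ≠ 0 := by
  intro h0
  have := natDegree_quart h
  rw [h0] at this
  simp at this

lemma height_quart (h : Good m n) : height (quart m n) ≤ 256 * (m.toNat) ^ 4 := by
  have h1 := h.hn
  have h2 := h.hnm
  have hm : 0 ≤ m := by omega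
  have hn0 : 0 ≤ n := by omega
  have hX : 0 ≤ xx m n ∧ xx m n ≤ 16 * m ^ 3 := by
    unfold xx
    have e1 : n ^ 2 ≤ m ^ 2 := pow_le_pow_left₀ hn0 h2 2
    have e2 : n ^ 3 ≤ m ^ 3 := pow_le_pow_left₀ hn0 h2 3
    have e3 : m ^ 2 * n ≤ m ^ 3 := by nlinarith [pow_nonneg hm 2]
    have e4 : m * n ^ 2 ≤ m ^ 3 := by nlinarith
    constructor
    · positivity
    · nlinarith
  have hY : 0 ≤ yy m n ∧ yy m n ≤ 13 * m ^ 3 := by
    unfold yy
    have e1 : n ^ 2 ≤ m ^ 2 := pow_le_pow_left₀ hn0 h2 2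
    have e2 : n ^ 3 ≤ m ^ 3 := pow_le_pow_left₀ hn0 h2 3
    have e3 : m ^ 2 * n ≤ m ^ 3 := by nlinarith [pow_nonneg hm 2]
    have e4 : m * n ^ 2 ≤ m ^ 3 := by nlinarith
    constructor
    · positivity
    · nlinarith
  obtain ⟨hX0, hX1⟩ := hX
  obtain ⟨hY0, hY1⟩ := hY
  have key : ∀ (p q u v : ℤ), 0 ≤ p → p ≤ 16 * m ^ 3 → 0 ≤ q → q ≤ 16 * m ^ 3 → 0 ≤ u →
      u ≤ 8 * m → 0 ≤ v → v ≤ 8 * m → 0 ≤ p * u + q * v ∧ p * u + q * v ≤ 256 * m ^ 4 := by
    intro p q u v hp hp' hq hq' hu hu' hv hv'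
    constructor
    · positivity
    · have a1 : p * u ≤ (16 * m ^ 3) * (8 * m) := mul_le_mul hp' hu' hu (by positivity)
      have a2 : q * v ≤ (16 * m ^ 3) * (8 * m) := mul_le_mul hq' hv' hv (by positivity)
      nlinarith
  have hY1' : yy m n ≤ 16 * m ^ 3 := by
    have : 0 ≤ m ^ 3 := by positivity
    linarith
  rw [height_le_iff]
  intro i
  zify
  rw [Int.toNat_of_nonneg hm]
  rw [abs_le]
  have k4 := key (yy m n) 0 (m + n) 0 hY0 hY1' le_rfl (by positivity) (by omega) (by omega) le_rfl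
    (by omega)
  have k3 := key (yy m n) (xx m n) (3 * m + 2 * n) (m + n) hY0 hY1' hX0 hX1 (by omega) (by omega)
    (by omega) (by omega)
  have k2 := key (yy m n) (xx m n) (2 * m + 6 * n) (3 * m + 2 * n) hY0 hY1' hX0 hX1 (by omega)
    (by omega) (by omega) (by omega)
  have k1 := key (yy m n) (xx m n) (2 * m + 4 * n) (2 * m + 6 * n) hY0 hY1' hX0 hX1 (by omega)
    (by omega) (by omega) (by omega)
  have k0 := key 0 (xx m n) 0 (2 * m + 4 * n) le_rfl (by positivity) hX0 hX1 le_rfl (by omega)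
    (by omega) (by omega)
  have hpos : 0 ≤ 256 * m ^ 4 := by positivity
  rcases lt_trichotomy i 4 with hi | hi | hi
  · interval_cases i
    · rw [quart, poly4_coeff_zero]; constructor <;> linarith [k0.1, k0.2]
    · rw [quart, poly4_coeff_one]; constructor <;> linarith [k1.1, k1.2]
    · rw [quart, poly4_coeff_two]; constructor <;> linarith [k2.1, k2.2]
    · rw [quart, poly4_coeff_three]; constructor <;> linarith [k3.1, k3.2]
  · subst hi
    rw [quart, poly4_coeff_four]; constructor <;> linarith [k4.1, k4.2]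
  · rw [coeff_eq_zero_of_natDegree_lt (by rw [natDegree_quart h]; exact hi)]
    constructor <;> linarith

lemma g_ofReal (x : ℝ) : g m n (x : ℂ) = (f m n x : ℂ) := by
  unfold g f; push_cast; ring

/-- the cubic has no multiple complex root -/
lemma no_double_root (h : Good m n) (z : ℂ) (h0 : g m n z = 0) : g' m n z ≠ 0 := by
  intro h1
  have hn : (1 : ℝ) ≤ n := by exact_mod_cast h.hn
  have hnm : (n : ℝ) ≤ m := by exact_mod_cast h.hnm
  have hmn : (m : ℝ) ≤ 2 * n := by exact_mod_cast h.hmn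
  -- `z` is real
  set A : ℝ := 2 * (3 * (m + n) * (2 * m + 6 * n) - (3 * m + 2 * n) ^ 2) with hA
  set B : ℝ := 9 * (m + n) * (2 * m + 4 * n) - (3 * m + 2 * n) * (2 * m + 6 * n) with hB
  have hApos : 0 < A := by
    have : A = 2 * ((2 * n - m) * (6 * m + 3 * n) + 8 * n ^ 2 + 3 * m * (m + n)) := by
      rw [hA]; ring
    rw [this]
    have h1 : 0 ≤ (2 * n - m : ℝ) * (6 * m + 3 * n) :=
      mul_nonneg (by linarith) (by linarith)
    have h2 : (0:ℝ) < 8 * n ^ 2 := by positivity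
    have h3 : (0:ℝ) ≤ 3 * m * (m + n) := by
      apply mul_nonneg <;> linarith
    linarith
  have hlin : (A : ℂ) * z - B = 0 := by
    have e1 : (A : ℂ) * z - B =
        3 * (m + n) * (3 * g m n z - z * g' m n z) + (3 * m + 2 * n) * g' m n z := by
      rw [hA, hB]
      unfold g g'
      push_cast
      ring
    rw [e1, h0, h1]
    ring
  have hz : z = ((B / A : ℝ) : ℂ) := by
    have hAc : (A : ℂ) ≠ 0 := by exact_mod_cast hApos.ne'
    push_cast
    rw [eq_div_iff hAc]
    linear_combination hlin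
  -- but the real derivative is positive
  have h2 := dd_ge h (B / A) (B / A)
  have h3 : dd m n (B / A) (B / A) = 0 := by
    have : ((dd m n (B / A) (B / A) : ℝ) : ℂ) = 0 := by
      rw [← h1, hz]
      unfold dd g'
      push_cast
      ring
    exact_mod_cast this
  linarith

lemma distinct_quart (h : Good m n) : HasDistinctRoots (quart m n) := by
  classical
  have hy := yy_pos h
  have hyc : (yy m n : ℂ) ≠ 0 := by exact_mod_cast hy.ne'
  unfold HasDistinctRoots
  have hne : (quart m n).map (Int.castRingHom ℂ) ≠ 0 := by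
    rw [Ne, Polynomial.map_eq_zero_iff (RingHom.injective_int _)]
    exact quart_ne_zero h
  rw [Multiset.nodup_iff_count_le_one]
  intro z
  rw [count_roots]
  by_contra hlt
  push Not at hlt
  rw [one_lt_rootMultiplicity_iff_isRoot hne] at hlt
  obtain ⟨hr1, hr2⟩ := hlt
  rw [IsRoot.def, eval_quart] at hr1
  rw [IsRoot.def, eval_derivative_quart] at hr2
  rcases mul_eq_zero.1 hr1 with h1 | h1
  · -- the rational root is not a root of the cubic
    rw [h1, zero_mul, add_zero] at hr2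
    have hg : g m n z = 0 := (mul_eq_zero.1 hr2).resolve_left hyc
    have hz : z = ((xx m n / yy m n : ℝ) : ℂ) := by
      push_cast
      rw [eq_div_iff hyc]
      linear_combination h1
    rw [hz, g_ofReal] at hg
    have hf : f m n (xx m n / yy m n) = 0 := by exact_mod_cast hg
    have habs := f_root_abs h
    rw [hf, abs_zero] at habs
    have : (0:ℝ) < 2 / (yy m n : ℝ) ^ 3 := by positivity
    linarith
  · rw [h1, mul_zero, zero_add] at hr2
    rcases mul_eq_zero.1 hr2 with h2 | h2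
    · have hz : z = ((xx m n / yy m n : ℝ) : ℂ) := by
        push_cast
        rw [eq_div_iff hyc]
        linear_combination h2
      rw [hz, g_ofReal] at h1
      have hf : f m n (xx m n / yy m n) = 0 := by exact_mod_cast h1
      have habs := f_root_abs h
      rw [hf, abs_zero] at habs
      have : (0:ℝ) < 2 / (yy m n : ℝ) ^ 3 := by positivity
      linarith
    · exact no_double_root h z h1 h2

lemma sep_quart (h : Good m n) : sep (quart m n) ≤ 2 / (m : ℝ) ^ 10 := by
  obtain ⟨β, hβ, hne, hdist⟩ := exists_root h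
  have hyc : (yy m n : ℂ) ≠ 0 := by exact_mod_cast (yy_pos h).ne'
  have h1 : aeval (β : ℂ) (quart m n) = 0 := by
    rw [aeval_quart, g_ofReal, hβ]
    simp
  have h2 : aeval ((xx m n / yy m n : ℝ) : ℂ) (quart m n) = 0 := by
    rw [aeval_quart]
    push_cast
    field_simp
    ring
  have h3 : (β : ℂ) ≠ ((xx m n / yy m n : ℝ) : ℂ) := by
    intro h4
    exact hne (by exact_mod_cast h4)
  refine (sep_le_dist h3 h1 h2).trans ?_
  rw [Complex.dist_eq, ← Complex.ofReal_sub, Complex.norm_real, Real.norm_eq_abs]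
  exact hdist

end poly

/-- **Theorem.** `e(4) ≥ 5 / 2`: there are separable integer quartics with arbitrarily large height
whose root separation is at most a constant times `H ^ (-5/2)`. -/
theorem result : ((5 / 2 : ℝ) : EReal) ≤ e 4 := by
  refine le_sepExponent (fun P h => h) (by norm_num) (5 / 2) (2 * 256 ^ (5 / 2 : ℝ)) ?_
  intro N
  obtain ⟨m, n, h, hN⟩ := exists_good N
  have h1 := h.hn
  have h2 := h.hnm
  have hm0 : 0 ≤ m := by omega
  have hmpos : (0 : ℝ) < m := by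
    have : (0:ℤ) < m := by omega
    exact_mod_cast this
  refine ⟨256 * m.toNat ^ 4, ?_, quart m n, natDegree_quart h, height_quart h, distinct_quart h,
    ?_⟩
  · have h3 : N ≤ m.toNat := by omega
    have h4 : 1 ≤ m.toNat := by omega
    calc N ≤ m.toNat := h3
      _ ≤ m.toNat ^ 4 := Nat.le_self_pow (by norm_num) _
      _ ≤ 256 * m.toNat ^ 4 := Nat.le_mul_of_pos_left _ (by norm_num)
  · refine (sep_quart h).trans (le_of_eq ?_)
    have hcast : ((256 * m.toNat ^ 4 : ℕ) : ℝ) = 256 * (m : ℝ) ^ 4 := by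
      push_cast
      have : ((m.toNat : ℕ) : ℝ) = (m : ℝ) := by
        have := Int.toNat_of_nonneg hm0
        exact_mod_cast congrArg (Int.cast : ℤ → ℝ) this
      rw [this]
    rw [hcast, Real.rpow_neg (by positivity), Real.mul_rpow (by norm_num) (by positivity)]
    have h5 : ((m : ℝ) ^ 4) ^ (5 / 2 : ℝ) = (m : ℝ) ^ 10 := by
      rw [← Real.rpow_natCast, ← Real.rpow_mul hmpos.le, ← Real.rpow_natCast]
      norm_num
    rw [h5]
    have h6 : (0:ℝ) < (256 : ℝ) ^ (5 / 2 : ℝ) := by positivity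
    field_simp

end Pool.Agent.Results.MP_625f41_nt.QuarticExponent
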